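import Mathlib

namespace Pool.Agent.Results.MP_2b4a1d_al.X3

abbrev Gen (n : ℕ) := {i : ℕ // 1 ≤ i ∧ i < n}

def braidRels (n : ℕ) : Set (FreeGroup (Gen n)) :=
  {r | ∃ i j : Gen n,
    (i.1 + 1 < j.1 ∧ r = FreeGroup.of i * FreeGroup.of j * (FreeGroup.of j * FreeGroup.of i)⁻¹) ∨
    (i.1 + 1 = j.1 ∧ r = FreeGroup.of i * FreeGroup.of j * FreeGroup.of i *
      (FreeGroup.of j * FreeGroup.of i * FreeGroup.of j)⁻¹)}

abbrev Braid (n : ℕ) := PresentedGroup (braidRels n)

def sg (n i : ℕ) : Braid n := if h : 1 ≤ i ∧ i < n then PresentedGroup.of ⟨i, h⟩ else 1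

def up (n a l : ℕ) : Braid n := ((List.range' a l).map (sg n)).prod

def down (n a l : ℕ) : Braid n := ((List.range' a l).reverse.map (sg n)).prod

section
variable (R : Type) [CommRing R] (q : R) (n : ℕ)

noncomputable def W (e a l : ℕ) : MonoidAlgebra R (Braid n) :=
  q ^ e • MonoidAlgebra.of R _ (down n a l)⁻¹ - MonoidAlgebra.of R _ (up n a l)

noncomputable def X : ℕ → MonoidAlgebra R (Braid n)
  | 0 => W R q n 1 1 1 + (1 - q) • 1
  | j + 1 => W R q n (j + 2) 1 (j + 2) * X j

noncomputable def G (k : ℕ) : MonoidAlgebra R (Braid n) :=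
  if k = 2 then W R q n 1 2 1 + (1 - q) • 1 else W R q n (k - 1) 2 (k - 1)

noncomputable def relIdeal : TwoSidedIdeal (MonoidAlgebra R (Braid n)) :=
  TwoSidedIdeal.span
    {r | ∃ k, 2 ≤ k ∧ k < n ∧ r = (G R q n k - W R q n (k - 1) 1 k) * X R q n (k - 2)}

end

def ch {A : Type} [CommRing A] (s : Aˣ) (n : ℕ) : Braid n →* Aˣ :=
  PresentedGroup.toGroup (f := fun _ => s) (by
    rintro r ⟨i, j, ⟨-, rfl⟩ | ⟨-, rfl⟩⟩ <;> simp)

theorem ch_list {A : Type} [CommRing A] (s : Aˣ) (n : ℕ) (L : List ℕ)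
    (h : ∀ i ∈ L, 1 ≤ i ∧ i < n) : ch s n (L.map (sg n)).prod = s ^ L.length := by
  induction L with
  | nil => simp
  | cons a L ih =>
    have ha := h a (by simp)
    rw [List.map_cons, List.prod_cons, map_mul, ih (fun i hi => h i (by simp [hi])), sg,
      dif_pos ha, ch, PresentedGroup.toGroup.of, List.length_cons, pow_succ']

section
variable {R A : Type} [CommRing R] [CommRing A] [Algebra R A] (q : R) (s : Aˣ) (n : ℕ)

noncomputable def Φ : MonoidAlgebra R (Braid n) →ₐ[R] A :=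
  MonoidAlgebra.lift R A (Braid n) ((Units.coeHom A).comp (ch s n))

theorem Φ_W (e a l : ℕ) (ha : 1 ≤ a) (hl : a + l ≤ n) :
    Φ s n (W R q n e a l) = algebraMap R A q ^ e * ((s⁻¹ : Aˣ) : A) ^ l - (s : A) ^ l := by
  have h1 : ch s n (up n a l) = s ^ l := by
    rw [up, ch_list, List.length_range']
    intro i hi
    rw [List.mem_range'_1] at hi
    omega
  have h2 : ch s n (down n a l) = s ^ l := by
    rw [down, ch_list, List.length_reverse, List.length_range']
    intro i hi
    rw [List.mem_reverse, List.mem_range'_1] at hi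
    omega
  simp only [W, Φ, map_sub, map_smul, MonoidAlgebra.lift_of, MonoidHom.comp_apply, map_inv, h1, h2,
    Units.coeHom_apply, Algebra.smul_def, map_pow, map_mul, AlgHom.commutes, ← inv_pow,
    Units.val_pow_eq_pow_val]

theorem main (hn : 3 ≤ n) (hs : (s : A) ^ 2 = s - 1)
    (h3 : n = 3 ∨ (algebraMap R A q + s) ^ 2 = 0)
    (hne : (1 - (algebraMap R A q ^ 2 + 1) * s) * (1 - (algebraMap R A q + 1) * s) ≠ 0) :
    X R q n 1 ∉ relIdeal R q n := by
  set Q := algebraMap R A q with hQ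
  have hi : ((s⁻¹ : Aˣ) : A) = 1 - s := by
    have := s.inv_mul
    linear_combination (1 - (s : A)) * this + ((s⁻¹ : Aˣ) : A) * hs
  have x0 : Φ s n (X R q n 0) = 1 - (Q + 1) * s := by
    rw [X, map_add, Φ_W q s n 1 1 1 le_rfl (by omega), map_smul, map_one, Algebra.smul_def,
      map_sub, map_one, hi]
    ring
  have x1 : Φ s n (X R q n 1) = (1 - (Q ^ 2 + 1) * s) * (1 - (Q + 1) * s) := by
    rw [X, map_mul, Φ_W q s n 2 1 2 le_rfl (by omega), x0, hi]
    linear_combination (1 - (Q + 1) * s) * (Q ^ 2 - 1) * hs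
  intro hmem
  have hle : relIdeal R q n ≤ TwoSidedIdeal.ker (Φ (R := R) s n) := by
    rw [relIdeal, TwoSidedIdeal.span_le]
    rintro r ⟨k, hk2, hkn, rfl⟩
    rw [SetLike.mem_coe, TwoSidedIdeal.mem_ker, map_mul, map_sub]
    obtain ⟨j, rfl⟩ : ∃ j, k = j + 2 := ⟨k - 2, by omega⟩
    rw [Φ_W q s n _ 1 _ le_rfl (by omega), hi]
    match j with
    | 0 =>
      rw [G, if_pos rfl, map_add, Φ_W q s n 1 2 1 (by omega) (by omega), map_smul, map_one,
        Algebra.smul_def, map_sub, map_one, hi]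
      have : Q ^ 1 * (1 - (s : A)) ^ 1 - s ^ 1 + (1 - Q) * 1 -
          (Q ^ (0 + 2 - 1) * (1 - (s : A)) ^ (0 + 2) - s ^ (0 + 2)) = 0 := by
        linear_combination (1 - Q) * hs
      rw [this, zero_mul]
    | 1 =>
      have h4 := h3.resolve_left (by omega)
      rw [G, if_neg (by omega), Φ_W q s n _ 2 _ (by omega) (by omega), hi]
      show (Q ^ 2 * (1 - (s : A)) ^ 2 - s ^ 2 - (Q ^ 2 * (1 - (s : A)) ^ 3 - s ^ 3)) *
        Φ s n (X R q n 1) = 0
      rw [x1]
      have e1 : Q ^ 2 * (1 - (s : A)) ^ 2 - s ^ 2 - (Q ^ 2 * (1 - (s : A)) ^ 3 - s ^ 3) =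
          (Q + s) * ((Q - s) * (1 - s)) := by
        linear_combination (Q ^ 2 * (s - 1)) * hs
      have e2 : 1 - (Q + 1) * (s : A) = (Q + s) * (-s) := by linear_combination hs
      rw [e1, e2]
      linear_combination ((Q - s) * (1 - s) * (1 - (Q ^ 2 + 1) * s) * (-s)) * h4
    | j + 2 =>
      have h4 := h3.resolve_left (by omega)
      have : ∀ i, i + 4 ≤ n → Φ s n (X R q n (i + 2)) = 0 := by
        intro i
        induction i with
        | zero =>
          intro _
          rw [X, map_mul, Φ_W q s n 3 1 3 le_rfl (by omega), x1, hi]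
          have e1 : Q ^ 3 * (1 - (s : A)) ^ 3 - s ^ 3 = (Q + s) * (-(Q ^ 2 - Q * s + s ^ 2)) := by
            linear_combination (Q ^ 3 * (2 - s)) * hs
          have e2 : 1 - (Q + 1) * (s : A) = (Q + s) * (-s) := by linear_combination hs
          rw [e1, e2]
          linear_combination (-(Q ^ 2 - Q * s + s ^ 2) * (1 - (Q ^ 2 + 1) * s) * (-s)) * h4
        | succ i ih => intro h; rw [X, map_mul, ih (by omega), mul_zero]
      rw [show j + 2 + 2 - 2 = j + 2 from rfl, this j (by omega), mul_zero]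
  have := hle hmem
  rw [TwoSidedIdeal.mem_ker, x1] at this
  exact hne this

end

open QuadraticAlgebra

abbrev QA (K : Type) [CommRing K] := QuadraticAlgebra K (-1) 1

def om (K : Type) [CommRing K] : (QA K)ˣ :=
  ⟨⟨0, 1⟩, ⟨1, -1⟩, by ext <;> simp, by ext <;> simp⟩

theorem om_sq (K : Type) [CommRing K] : ((om K : (QA K)ˣ) : QA K) ^ 2 = om K - 1 := by
  ext <;> simp [om, sq]

open LaurentPolynomial in
theorem result :
    (∀ (K : Type) [CommRing K] [Nontrivial K] (n : ℕ), 3 ≤ n →
      X K[T;T⁻¹] (T 1) n 1 ∉ relIdeal K[T;T⁻¹] (T 1) n) ∧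
    ∀ (R : Type) [CommRing R] (q : Rˣ), (q : R) ^ 2 + q + 1 ≠ 0 →
      X R q 3 1 ∉ relIdeal R q 3 := by
  constructor
  · intro K _ _ n hn
    let ι : QA K →+* DualNumber (QA K) := algebraMap _ _
    let s : (DualNumber (QA K))ˣ := Units.map ι.toMonoidHom (om K)
    have hs1 : (s : DualNumber (QA K)) = TrivSqZeroExt.inl (om K : QA K) := rfl
    have hs : (s : DualNumber (QA K)) ^ 2 = s - 1 := by
      show ι _ ^ 2 = ι _ - 1
      rw [← map_pow, om_sq, map_sub, map_one]
    have he : (DualNumber.eps : DualNumber (QA K)) ^ 2 = 0 := by rw [sq, DualNumber.eps_mul_eps]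
    have hu : (DualNumber.eps - (s : DualNumber (QA K))) * ((s : DualNumber (QA K)) - 1 + DualNumber.eps * (s : DualNumber (QA K))) = 1 := by
      linear_combination (-1 - DualNumber.eps) * hs + (s : DualNumber (QA K)) * he
    let u : (DualNumber (QA K))ˣ := Units.mkOfMulEqOne _ _ hu
    letI : Algebra K[T;T⁻¹] (DualNumber (QA K)) :=
      (LaurentPolynomial.eval₂ (ι.comp (algebraMap K (QA K))) u).toAlgebra
    have hq : algebraMap K[T;T⁻¹] (DualNumber (QA K)) (T 1) =
        DualNumber.eps - (s : DualNumber (QA K)) := by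
      show LaurentPolynomial.eval₂ _ u (T 1) = _
      rw [LaurentPolynomial.eval₂_T, zpow_one]
      rfl
    refine main (T 1) s n hn hs (Or.inr ?_) ?_
    · rw [hq, sub_add_cancel, he]
    · rw [hq]
      intro h
      have e : DualNumber.eps * (1 + (s : DualNumber (QA K))) = 0 := by
        generalize (DualNumber.eps : DualNumber (QA K)) = e at h he
        generalize (s : DualNumber (QA K)) = t at h hs
        linear_combination (-1 : DualNumber (QA K)) * h +
          (-t ^ 3 + 3 * e * t ^ 2 + e * t - t + 1 + e) * hs + (-t + e * t ^ 2 - 3 * t ^ 3 + t ^ 2) * he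
      have := congrArg (fun z => (TrivSqZeroExt.snd z).im) e
      simp [hs1, om] at this
  · intro R _ q hq
    refine main (q : R) (om R) 3 le_rfl (om_sq R) (Or.inl rfl) ?_
    intro h
    have := congrArg QuadraticAlgebra.re h
    simp [om, sq] at this
    apply hq
    have e : (q : R) * ((q : R) ^ 2 + q + 1) = 0 := by linear_combination (-1 : R) * this
    exact (Units.mul_right_eq_zero q).1 e

end Pool.Agent.Results.MP_2b4a1d_al.X3
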